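import Pool.Agent.W2helper74.CY.Defs
import Pool.Agent.X324.CF.Shf
import Pool.Agent.TH735.AQ.MirDefs

/-!
# Pairs `(X, B)` with `X = (T × F) / G`: definitions

`T = V / Λ` is a complex torus (it need not be algebraic), `F` a normal projective variety with free
class group `Cl(F) = ℤ^ρ`, `R = ⨁ 𝒜 β` with `𝒜 β = H⁰(F, O_F(β))`, and `X = (V × F) / Γ = (T × F) / G`.
-/

set_option autoImplicit false

namespace Pool.Agent.W2helper74.LP

open Pool.Agent.W594.SYZ2 Pool.Agent.TH735.AQ Pool.Agent.X324.CF

/-- A section of a sheaf `O_F(β)` which vanishes at all points of `F` is zero. -/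
def Separated {ρ : ℕ} {R : Type*} [CommRing R] [Algebra ℂ R] (𝒜 : Cl ρ → Submodule ℂ R)
    (u : Cl ρ) : Prop :=
  ∀ β, ∀ r ∈ 𝒜 β, r ≠ 0 → ∃ p : R →ₐ[ℂ] ℂ, Semistable 𝒜 u p ∧ p r ≠ 0

/-- `𝓛` is the sheaf `O_X(m (K_X + B))`, where `B` is an effective divisor on `X` such that `m B` is
integral.

* `η` defines the ramification divisor of `V × F → X` in the direction of `V`: the ramification
  divisor of `V → V / Γ₀`, where `Γ₀ = vert 𝒜 Γ` is the group of the affine transformations `a` in the
  pairs `(a, φ)` of `Γ` such that `φ` acts trivially on `F`.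
* `κ` is the class of the divisor `K_F - R_F`, where `R_F` is the ramification divisor in the direction
  of `F`: that of `F → F / G₀`, where `G₀` is the group of the automorphisms of `F` given by the pairs
  `(1, φ)` in `Γ`.
* `β` is a holomorphic function, not zero, whose values are sections of `O_F(deg - m κ)`; it defines the
  pull-back of the effective divisor `m B` to `V × F`.
* `χ` is a character of the finite group `gal Γ` of the automorphisms `φ` of `R` which occur in `Γ`: the
  action of `φ` on `m`-canonical forms on `F` differs from the action on `O_F(m κ)` by a scalar.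

The local section `g` of `𝓛` is the `m`-canonical form `g η ^ m / β (dv) ^ m`, where `g / β` is a
rational section of `O_F(m κ)`, that is an `m`-canonical form on `F` with values along `R_F`. This form
is invariant under `Γ`. -/
structure IsLogPluri {V R : Type*} [NormedAddCommGroup V] [NormedSpace ℂ V] [CommRing R]
    [Algebra ℂ R] {ρ : ℕ} {𝒜 : Cl ρ → Submodule ℂ R} {Γ : Grp V R} (𝓛 : Sheaf 𝒜 Γ) (κ : Cl ρ)
    (m : ℕ) (η : V → ℂ) (β : V → R) (χ : gal Γ →* ℂˣ) : Prop where
  ram : IsRamification (vert 𝒜 Γ) η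
  inv : Inv 𝒜 Γ κ
  mem : ∀ v, β v ∈ 𝒜 (𝓛.deg - m • κ)
  holo : Holo β
  ne_zero : ∃ v, β v ≠ 0
  eq : ∀ (γ : Γ) (v : V), η v ^ m • β (γ.1.1 v) =
    (𝓛.e γ v * LinearMap.det (γ.1.1.linear : V →ₗ[ℂ] V) ^ m * χ ⟨γ.1.2, mem_gal γ.2⟩ *
      η (γ.1.1 v) ^ m) • γ.1.2 (β v)

end Pool.Agent.W2helper74.LP
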