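import Pool.Agent.W2helper74.LP.Defs
import Pool.Agent.W2helper74.CY.Main
import Pool.Agent.R800.UB.Fib

/-!
# Log canonical divisors on quotients `(T × F) / G`
-/

set_option autoImplicit false

namespace Pool.Agent.W2helper74.LP

open Finset
open Pool.Agent.W594.SYZ2 Pool.Agent.W594.SYZ2.TQ Pool.Agent.TH735.AQ Pool.Agent.X324.CF
open Pool.Agent.R893.TQ (BaseFree)
open Pool.Agent.R800.UA (gl3 gl3_pos)
open Pool.Agent.R800.UB (root_of_mero fibration_root bpf_of_pullsBack)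
open Pool.Agent.W2helper74.CY

section Mirrors

variable {V : Type*} [NormedAddCommGroup V] [NormedSpace ℂ V] [FiniteDimensional ℂ V]
  {Γ₀ : Subgroup (V ≃ᵃ[ℂ] V)}

theorem countable_latt (hΓ : IsTorusQuotient Γ₀) : Countable (latt Γ₀) := by
  have : ProperSpace V := FiniteDimensional.proper ℂ V
  have h1 : DiscreteTopology (latt Γ₀) := hΓ.discrete
  exact countable_of_Lindelof_of_discrete

theorem countable_group (hΓ : IsTorusQuotient Γ₀) : Countable Γ₀ := by
  have := countable_latt hΓ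
  have := finite_Lin hΓ
  let f : Γ₀ → Lin Γ₀ := fun γ => ⟨γ.1.linear, γ.1, γ.2, rfl⟩
  have hfib : ∀ g : Lin Γ₀, (f ⁻¹' {g}).Countable := by
    intro g
    rcases (f ⁻¹' {g}).eq_empty_or_nonempty with h | ⟨γ₀, h₀⟩
    · rw [h]
      exact Set.countable_empty
    · have hlin : ∀ γ ∈ f ⁻¹' {g}, ∀ v, γ.1 v - γ₀.1 v = γ.1 0 - γ₀.1 0 := by
        intro γ hγ v
        have h1 : γ.1.linear = γ₀.1.linear := by
          have h2 : f γ = f γ₀ := by
            rw [Set.mem_preimage, Set.mem_singleton_iff] at hγ h₀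
            rw [hγ, h₀]
          exact congrArg Subtype.val h2
        rw [act γ.1 v, act γ₀.1 v, h1]
        abel
      have hmem : ∀ γ ∈ f ⁻¹' {g}, γ.1 0 - γ₀.1 0 ∈ latt Γ₀ := by
        intro γ hγ
        have h1 : AffineEquiv.constVAdd ℂ V (γ.1 0 - γ₀.1 0) = γ.1 * (γ₀.1)⁻¹ := by
          apply AffineEquiv.ext
          intro v
          change γ.1 0 - γ₀.1 0 + v = γ.1 ((γ₀.1)⁻¹ v)
          have h2 := hlin γ hγ ((γ₀.1)⁻¹ v)
          have h3 : γ₀.1 ((γ₀.1)⁻¹ v) = v := γ₀.1.apply_symm_apply v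
          rw [h3] at h2
          rw [← h2, sub_add_cancel]
        change AffineEquiv.constVAdd ℂ V (γ.1 0 - γ₀.1 0) ∈ Γ₀
        rw [h1]
        exact Γ₀.mul_mem γ.2 (Γ₀.inv_mem γ₀.2)
      let F : (f ⁻¹' {g}) → latt Γ₀ := fun γ => ⟨γ.1.1 0 - γ₀.1 0, hmem γ.1 γ.2⟩
      have hF : Function.Injective F := by
        intro γ γ' h
        apply Subtype.ext
        apply Subtype.ext
        apply AffineEquiv.ext
        intro v
        have h1 : γ.1.1 0 - γ₀.1 0 = γ'.1.1 0 - γ₀.1 0 := congrArg Subtype.val h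
        have h2 := hlin γ.1 γ.2 v
        have h3 := hlin γ'.1 γ'.2 v
        rw [h1, ← h3] at h2
        exact sub_left_injective h2
      exact Set.countable_coe_iff.1 hF.countable
  have huniv : (Set.univ : Set Γ₀) = ⋃ g : Lin Γ₀, f ⁻¹' {g} := by
    ext γ
    simp
  have h1 : (Set.univ : Set Γ₀).Countable := by
    rw [huniv]
    exact Set.countable_iUnion hfib
  exact Set.countable_univ_iff.1 h1

/-- An entire function which is not zero is not zero at some point off the mirrors. -/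
theorem exists_off (hΓ : IsTorusQuotient Γ₀) {f : V → ℂ} (hf : Differentiable ℂ f)
    (h0 : ∃ v, f v ≠ 0) : ∃ v, f v ≠ 0 ∧ ¬ OnMirror Γ₀ v := by
  classical
  have : CompleteSpace V := FiniteDimensional.complete ℂ V
  have := countable_group hΓ
  let U : Γ₀ → Set V := fun γ => if γ = 1 then Set.univ else {v | γ.1 v ≠ v}
  have hcont : ∀ γ : Γ₀, Continuous fun v => γ.1 v := fun γ =>
    (γ.1 : V →ᵃ[ℂ] V).continuous_of_finiteDimensional
  have hU : ∀ γ, IsOpen (U γ) := by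
    intro γ
    by_cases h : γ = 1
    · simp only [U, h, if_true]
      exact isOpen_univ
    · simp only [U, h, if_false]
      exact isOpen_ne_fun (hcont γ) continuous_id
  have hD : ∀ γ, Dense (U γ) := by
    intro γ
    by_cases h : γ = 1
    · simp only [U, h, if_true]
      exact dense_univ
    · simp only [U, h, if_false]
      obtain ⟨w, hw⟩ : ∃ w, γ.1 w ≠ w := by
        by_contra hcon
        push Not at hcon
        exact h (Subtype.ext (AffineEquiv.ext hcon))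
      intro v
      by_cases hv : γ.1 v = v
      · have hline : Continuous fun t : ℝ => v + (t : ℂ) • (w - v) := by fun_prop
        have h1 : Filter.Tendsto (fun t : ℝ => v + (t : ℂ) • (w - v)) (nhdsWithin 0 {0}ᶜ)
            (nhds v) := by
          have h2 := (hline.tendsto 0).mono_left (nhdsWithin_le_nhds (s := {0}ᶜ))
          simpa using h2
        refine mem_closure_of_tendsto h1 ?_
        filter_upwards [self_mem_nhdsWithin] with t ht
        have ht' : t ≠ 0 := ht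
        intro hcon
        apply hw
        have h3 : γ.1 (v + (t : ℂ) • (w - v)) = v + (t : ℂ) • (γ.1 w - v) := by
          have h4 : γ.1 w - v = γ.1.linear (w - v) := by
            have h5 := act_add γ.1 v (w - v)
            rw [add_sub_cancel, hv] at h5
            rw [h5, add_sub_cancel_left]
          rw [h4, act_add, map_smul, hv]
        rw [h3] at hcon
        have h5 := add_left_cancel hcon
        have h6 : (t : ℂ) ≠ 0 := by exact_mod_cast ht'
        have h7 := smul_right_injective V h6 h5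
        exact sub_left_injective h7
      · exact subset_closure hv
  have hdense := dense_iInter_of_isOpen hU hD
  have hopen : IsOpen {v | f v ≠ 0} := isOpen_ne_fun hf.continuous continuous_const
  obtain ⟨v, hv, hv'⟩ := hdense.inter_open_nonempty _ hopen h0
  refine ⟨v, hv, ?_⟩
  rintro ⟨γ, hγ, hne, ℓ, hℓ, hfix⟩
  have h1 := Set.mem_iInter.1 hv' ⟨γ, hγ⟩
  have h2 : (⟨γ, hγ⟩ : Γ₀) ≠ 1 := fun h => hne (congrArg Subtype.val h)
  simp only [U, h2, if_false] at h1
  exact h1 (hfix v rfl)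

end Mirrors

section Pairs

variable {V R : Type*} [NormedAddCommGroup V] [NormedSpace ℂ V] [FiniteDimensional ℂ V]
  [CommRing R] [Algebra ℂ R] {ρ : ℕ} {𝒜 : Cl ρ → Submodule ℂ R} {Γ : Grp V R} {u : Cl ρ}

omit [FiniteDimensional ℂ V] in
theorem vert_le : vert 𝒜 Γ ≤ base Γ := by
  rintro _ ⟨γ, hγ, rfl⟩
  exact ⟨γ, hγ.1, rfl⟩

omit [FiniteDimensional ℂ V] in
theorem onMirror_mono {Γ₁ Γ₂ : Subgroup (V ≃ᵃ[ℂ] V)} (h : Γ₁ ≤ Γ₂) {v : V}
    (hv : OnMirror Γ₁ v) : OnMirror Γ₂ v := by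
  obtain ⟨γ, hγ, h1⟩ := hv
  exact ⟨γ, h hγ, h1⟩

theorem nrm_smul {K : Subgroup (R ≃ₐ[ℂ] R)} [Fintype K] (c : ℂ) (r : R) :
    nrm K (c • r) = c ^ Fintype.card K • nrm K r := by
  simp only [nrm, map_smul]
  rw [Finset.prod_smul, Finset.prod_const, Finset.card_univ]

theorem nrm_apply {K : Subgroup (R ≃ₐ[ℂ] R)} [Fintype K] {φ : R ≃ₐ[ℂ] R} (hφ : φ ∈ K) (r : R) :
    nrm K (φ r) = nrm K r := by
  simp only [nrm]
  exact Fintype.prod_equiv (Equiv.mulRight (⟨φ, hφ⟩ : K)) _ _ fun ψ => rfl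

/-- Powers of the factor of automorphy of `m (K_X + B)` have sections without common zeros. -/
theorem bpf_log [GradedAlgebra 𝒜] [IsDomain R] (hQ : IsQuotient 𝒜 u Γ) (hsep : Separated 𝒜 u)
    {n : ℕ} (hd : Module.finrank ℂ V = n) {𝓛 : Sheaf 𝒜 Γ} {H : V → V → ℂ} (hc : 𝓛.IsChern H)
    (hn : IsNefForm H) {κ : Cl ρ} {m : ℕ} {η : V → ℂ} {β : V → R} {χ : gal Γ →* ℂˣ}
    (hP : IsLogPluri 𝓛 κ m η β χ) : Bpf 𝓛 (Nat.card (gal Γ) * (4 * gl3 n ^ 8)) := by
  classical
  have := hQ.fin_gal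
  have : Fintype (gal Γ) := Fintype.ofFinite _
  have := finite_Lin hQ.torus
  set N := Nat.card (gal Γ) with hN
  set Lc := Nat.card (Lin (base Γ)) with hLc
  have hcardN : Fintype.card (gal Γ) = N := by rw [hN, Nat.card_eq_fintype_card]
  obtain ⟨v₀, hβ0⟩ := hP.ne_zero
  have hinv : Inv 𝒜 Γ (𝓛.deg - m • κ) := by
    rw [sub_eq_add_neg]
    exact 𝓛.inv.add (hP.inv.nsmul m).neg
  have hmem := nrm_mem (𝒜 := 𝒜) (K := gal Γ) (fun φ hφ r hr => gal_mem hQ hinv hφ hr)
    (hP.mem v₀)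
  obtain ⟨p, -, hp0⟩ := hsep _ _ hmem (nrm_ne_zero hβ0)
  let A : V → ℂ := fun v => p (nrm (gal Γ) (β v))
  have hA : Differentiable ℂ A := by
    have h1 : A = fun v => ∏ φ : gal Γ, p (φ.1 (β v)) := by
      funext v
      simp only [A, nrm, map_prod]
    rw [h1]
    have h2 : ∀ s : Finset (gal Γ), Differentiable ℂ fun v => ∏ φ ∈ s, p (φ.1 (β v)) := by
      intro s
      induction s using Finset.induction_on with
      | empty =>
        simp only [Finset.prod_empty]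
        exact differentiable_const _
      | insert φ s hφ ih =>
        simp only [Finset.prod_insert hφ]
        have h3 : Differentiable ℂ fun v => p (φ.1 (β v)) :=
          hP.holo (p.toLinearMap ∘ₗ (φ.1 : R →ₐ[ℂ] R).toLinearMap)
        exact h3.mul ih
    exact h2 Finset.univ
  have hAeq : ∀ (γ : Γ) (v : V), (η v ^ m) ^ N * A (γ.1.1 v) =
      (𝓛.e γ v * LinearMap.det (γ.1.1.linear : V →ₗ[ℂ] V) ^ m *
        ((χ ⟨γ.1.2, mem_gal γ.2⟩ : ℂˣ) : ℂ) * η (γ.1.1 v) ^ m) ^ N * A v := by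
    intro γ v
    have h1 := congrArg (fun r => p (nrm (gal Γ) r)) (hP.eq γ v)
    simp only [nrm_smul, hcardN] at h1
    rw [nrm_apply (mem_gal γ.2), map_smul, map_smul, smul_eq_mul, smul_eq_mul] at h1
    exact h1
  have hχ : ∀ φ : gal Γ, ((χ φ : ℂˣ) : ℂ) ^ N = 1 := by
    intro φ
    rw [← Units.val_pow_eq_pow_val, ← map_pow, hN, pow_card_eq_one', map_one, Units.val_one]
  have hch := Sheaf.toLB_chern hQ hc
  have hn' : IsNefForm (fun v w => (expo Γ : ℂ) * H v w) := nef_mul hn (expo Γ)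
  obtain ⟨hH', F, hF, hFe⟩ := hch
  have hpot : IsPot (𝓛.toLB hQ) (fun v w => (expo Γ : ℂ) * H v w) F := ⟨hF, hFe⟩
  have hθ : Differentiable ℂ fun v => A v ^ Lc := hA.pow Lc
  have hs : Differentiable ℂ fun v => η v ^ (m * (N * Lc)) := hP.ram.holo.pow _
  have hroot := root_of_mero hQ.torus hH' hpot hn' hθ hs
    (exists_off hQ.torus hθ ⟨v₀, pow_ne_zero _ hp0⟩)
    (fun v hv => onMirror_mono (vert_le (𝒜 := 𝒜)) ((hP.ram.zero_iff v).1
      (eq_zero_of_pow_eq_zero hv))) (by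
    intro b hb v
    obtain ⟨g, hg, hgb⟩ := hb
    have hgb' : g.1 = AffineEquiv.constVAdd ℂ V b := hgb
    have h1 := hAeq ⟨g, hg⟩ v
    have hdet : LinearMap.det (g.1.linear : V →ₗ[ℂ] V) = 1 := by
      have h3 : (g.1.linear : V →ₗ[ℂ] V) = LinearMap.id := by
        rw [hgb']
        rfl
      rw [h3, LinearMap.det_id]
    have hgv : g.1 v = b + v := by
      rw [hgb']
      rfl
    have hLe : (𝓛.toLB hQ).e (tr b ⟨g, hg, hgb⟩) v = 𝓛.e ⟨g, hg⟩ v ^ expo Γ := by
      rw [← Sheaf.toLB_e hQ 𝓛 ⟨g, hg⟩ v]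
      congr 1
      exact Subtype.ext hgb.symm
    change A (b + v) ^ Lc * η v ^ (m * (N * Lc))
      = (𝓛.toLB hQ).e _ v * A v ^ Lc * η (b + v) ^ (m * (N * Lc))
    rw [hLe]
    change (η v ^ m) ^ N * A (g.1 v) = (𝓛.e ⟨g, hg⟩ v * LinearMap.det (g.1.linear : V →ₗ[ℂ] V) ^ m *
        ((χ ⟨g.2, mem_gal hg⟩ : ℂˣ) : ℂ) * η (g.1 v) ^ m) ^ N * A v at h1
    rw [hdet, one_pow, mul_one, hgv, mul_pow, mul_pow, hχ, mul_one] at h1
    have h2 := congrArg (fun z => z ^ Lc) h1
    simp only [mul_pow, ← pow_mul] at h2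
    have h3 : expo Γ = N * Lc := by
      rw [expo, mul_comm]
    rw [h3, mul_comm (A (b + v) ^ Lc), ← mul_assoc m N Lc, h2]
    ring)
  obtain ⟨k, Δ, π, -, hfib, hpull⟩ := fibration_root hQ.torus hd hH' hpot hn' hroot
  have hfree := bpf_of_line hQ (bpf_of_pullsBack hfib hpull)
  obtain ⟨c, hcc⟩ := Pool.Agent.R800.UA.card_dvd hQ.torus hd
  have h2 := hfree.mul c
  have h3 : expo Γ * (4 * gl3 n ^ 7) * c = Nat.card (gal Γ) * (4 * gl3 n ^ 8) := by
    have h4 : gl3 n ^ 8 = gl3 n ^ 7 * (Nat.card (Lin (base Γ)) * c) := by rw [← hcc]; ring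
    rw [expo, h4]
    ring
  rwa [h3] at h2

end Pairs

end Pool.Agent.W2helper74.LP
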